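import Pool.Agent.helper1.UN.SpecU

set_option autoImplicit false

/-!
# Project UN (MP_cf4097_nt), block H, row VZS: summability over the ideals
-/

open NumberField Complex MeasureTheory NumberField.Units NumberField.Units.dirichletUnitTheorem
open scoped Classical

namespace Pool.Agent.UN

theorem VZS_geo (C σ : ℝ) (hσ : 1 < σ) :
    Summable (fun j : ℕ => ((2 : ℝ) ^ j) ^ (-σ) * (C * ((2 : ℝ) ^ (j + 1)) ^ (1 + (σ - 1) / 2))) := by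
  have h1 : ∀ j : ℕ, ((2 : ℝ) ^ j) ^ (-σ) * (C * ((2 : ℝ) ^ (j + 1)) ^ (1 + (σ - 1) / 2)) =
      (C * (2 : ℝ) ^ (1 + (σ - 1) / 2)) * ((2 : ℝ) ^ (-((σ - 1) / 2))) ^ j := by
    intro j
    have e1 : ((2 : ℝ) ^ j) ^ (-σ) = (2 : ℝ) ^ ((j : ℝ) * (-σ)) := by
      rw [← Real.rpow_natCast 2 j, ← Real.rpow_mul (by norm_num)]
    have e2 : ((2 : ℝ) ^ (j + 1)) ^ (1 + (σ - 1) / 2) = (2 : ℝ) ^ (((j : ℝ) + 1) * (1 + (σ - 1) / 2)) := by
      rw [← Real.rpow_natCast 2 (j + 1), ← Real.rpow_mul (by norm_num)]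
      push_cast
      rfl
    have e3 : ((2 : ℝ) ^ (-((σ - 1) / 2))) ^ j = (2 : ℝ) ^ (-((σ - 1) / 2) * j) := by
      rw [Real.rpow_mul_natCast (by norm_num)]
    rw [e1, e2, e3]
    have e4 : (2 : ℝ) ^ ((j : ℝ) * (-σ)) * (2 : ℝ) ^ (((j : ℝ) + 1) * (1 + (σ - 1) / 2)) =
        (2 : ℝ) ^ (1 + (σ - 1) / 2) * (2 : ℝ) ^ (-((σ - 1) / 2) * j) := by
      rw [← Real.rpow_add (by norm_num), ← Real.rpow_add (by norm_num)]
      congr 1
      ring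
    calc (2 : ℝ) ^ ((j : ℝ) * (-σ)) * (C * (2 : ℝ) ^ (((j : ℝ) + 1) * (1 + (σ - 1) / 2)))
        = C * ((2 : ℝ) ^ ((j : ℝ) * (-σ)) * (2 : ℝ) ^ (((j : ℝ) + 1) * (1 + (σ - 1) / 2))) := by ring
      _ = C * ((2 : ℝ) ^ (1 + (σ - 1) / 2) * (2 : ℝ) ^ (-((σ - 1) / 2) * j)) := by rw [e4]
      _ = _ := by ring
  simp_rw [h1]
  apply Summable.mul_left
  apply summable_geometric_of_lt_one (by positivity)
  exact Real.rpow_lt_one_of_one_lt_of_neg (by norm_num) (by linarith)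

theorem VZS (hIDN : IDN_stmt) (hFIN0 : FIN0_stmt) (hPRO : PRO_stmt) : VZS_stmt := by
  intro K _ _ χ σ hχ hbot hσ
  obtain ⟨hn, -, -, -, -, hN1, -⟩ := hPRO K
  obtain ⟨-, -, hfin⟩ := hFIN0 K
  obtain ⟨C, hC, hcount⟩ := hIDN (Module.finrank ℚ K) hn ((σ - 1) / 2) (by linarith)
  set g : ℕ → ℝ := fun j : ℕ => ((2 : ℝ) ^ j) ^ (-σ) * (C * ((2 : ℝ) ^ (j + 1)) ^ (1 + (σ - 1) / 2)) with hg
  have hgs : Summable g := VZS_geo C σ hσ
  have hg0 : ∀ j, 0 ≤ g j := fun j => by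
    rw [hg]
    have : 0 ≤ C := by linarith
    positivity
  have hF0 : ∀ a : Ideal (𝓞 K), 0 ≤ ‖χ a‖ * Nm a ^ (-σ) := by
    intro a
    have : 0 ≤ Nm a := Nat.cast_nonneg _
    positivity
  apply summable_of_sum_le (c := ∑' j, g j) hF0
  intro T
  set l : Ideal (𝓞 K) → ℕ := fun a => Nat.log 2 (Ideal.absNorm a) with hl
  rw [← Finset.sum_fiberwise_of_maps_to (s := T) (t := T.image l) (g := l) (fun a ha => Finset.mem_image_of_mem l ha)]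
  refine le_trans (Finset.sum_le_sum fun j _ => ?_) (hgs.sum_le_tsum (T.image l) fun j _ => hg0 j)
  -- the inner sum
  set U := (T.filter fun a => l a = j).filter fun a => a ≠ ⊥ with hU
  have h1 : ∑ a ∈ T.filter (fun a => l a = j), ‖χ a‖ * Nm a ^ (-σ) =
      ∑ a ∈ U, ‖χ a‖ * Nm a ^ (-σ) := by
    rw [hU]
    symm
    apply Finset.sum_filter_of_ne
    intro a _ ha h
    apply ha
    rw [h, hbot, norm_zero, zero_mul]
  rw [h1]
  have hUm : ∀ a ∈ U, a ≠ ⊥ ∧ (2 : ℝ) ^ j ≤ Nm a ∧ Nm a ≤ (2 : ℝ) ^ (j + 1) := by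
    intro a ha
    obtain ⟨ha1, ha2⟩ := Finset.mem_filter.1 ha
    have ha3 : l a = j := (Finset.mem_filter.1 ha1).2
    have h2 : 1 ≤ Nm a := hN1 a ha2
    have h3 : Ideal.absNorm a ≠ 0 := by
      intro h
      unfold Nm at h2
      rw [h] at h2
      norm_num at h2
    refine ⟨ha2, ?_, ?_⟩
    · have h4 := Nat.pow_log_le_self 2 h3
      have h5 : 2 ^ j ≤ Ideal.absNorm a := by
        rw [← ha3]
        exact h4
      unfold Nm
      exact_mod_cast h5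
    · have h4 := Nat.lt_pow_succ_log_self (b := 2) (by norm_num) (Ideal.absNorm a)
      have h5 : Ideal.absNorm a < 2 ^ (j + 1) := by
        rw [← ha3]
        exact h4
      unfold Nm
      exact_mod_cast h5.le
  have h2 : ∀ a ∈ U, ‖χ a‖ * Nm a ^ (-σ) ≤ ((2 : ℝ) ^ j) ^ (-σ) := by
    intro a ha
    obtain ⟨-, h3, -⟩ := hUm a ha
    have h4 : Nm a ^ (-σ) ≤ ((2 : ℝ) ^ j) ^ (-σ) :=
      Real.rpow_le_rpow_of_nonpos (by positivity) h3 (by linarith)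
    have h5 : 0 ≤ Nm a ^ (-σ) := by
      have : 0 ≤ Nm a := Nat.cast_nonneg _
      positivity
    calc ‖χ a‖ * Nm a ^ (-σ) ≤ 1 * Nm a ^ (-σ) := mul_le_mul_of_nonneg_right (hχ a) h5
      _ ≤ _ := by rw [one_mul]; exact h4
  have h3 : (U.card : ℝ) ≤ C * ((2 : ℝ) ^ (j + 1)) ^ (1 + (σ - 1) / 2) := by
    refine le_trans ?_ (hcount K rfl ((2 : ℝ) ^ (j + 1)) (by positivity))
    have h4 : (U : Set (Ideal (𝓞 K))) ⊆ {I : Ideal (𝓞 K) | I ≠ ⊥ ∧ Nm I ≤ (2 : ℝ) ^ (j + 1)} := by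
      intro a ha
      obtain ⟨e1, -, e3⟩ := hUm a (Finset.mem_coe.1 ha)
      exact ⟨e1, e3⟩
    have h5 := Set.ncard_le_ncard h4 (hfin _)
    rw [Set.ncard_coe_finset] at h5
    exact_mod_cast h5
  calc ∑ a ∈ U, ‖χ a‖ * Nm a ^ (-σ) ≤ ∑ _a ∈ U, ((2 : ℝ) ^ j) ^ (-σ) := Finset.sum_le_sum h2
    _ = ((2 : ℝ) ^ j) ^ (-σ) * U.card := by rw [Finset.sum_const, nsmul_eq_mul, mul_comm]
    _ ≤ g j := mul_le_mul_of_nonneg_left h3 (by positivity)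

end Pool.Agent.UN
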